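import Pool.Agent.Lib.H73R.S10

/-!
# The astronaut problem: the asymptotic constant up to a factor `5 / 4`

For `r / ρ → 0` the symmetric rendezvous value satisfies
`(π² / 4 - o(1)) ρ² / r ≤ R^s(ρ, r) ≤ (5 π² / 16) ρ² / r`.
-/

set_option autoImplicit false

namespace Pool.Agent.Results.MP_98cbc5_pr.FiveFourths

open Astro

theorem result : ∀ ε : ℝ, 0 < ε → ∃ δ : ℝ, 0 < δ ∧ ∀ (ρ r : ℝ) (N : E3),
    0 < ρ → ‖N‖ = ρ → 0 < r → r < δ * ρ →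
      ENNReal.ofReal ((Real.pi ^ 2 / 4 - ε) * ρ ^ 2 / r) ≤ value ρ r N ∧
      value ρ r N ≤ ENNReal.ofReal (5 * Real.pi ^ 2 / 16 * ρ ^ 2 / r) := by
  intro ε hε
  obtain ⟨δ₁, h₁, H₁⟩ := lower_asymp hε
  obtain ⟨δ₂, h₂, H₂⟩ := AstroR.upper
  refine ⟨min δ₁ δ₂, lt_min h₁ h₂, fun ρ r N hρ hN hr0 hr => ⟨?_, ?_⟩⟩
  · exact H₁ ρ r N hρ hr0 (hr.trans_le (mul_le_mul_of_nonneg_right (min_le_left _ _) hρ.le))
  · exact H₂ ρ r N hρ hN hr0 (hr.trans_le (mul_le_mul_of_nonneg_right (min_le_right _ _) hρ.le))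

end Pool.Agent.Results.MP_98cbc5_pr.FiveFourths
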